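import Pool.Agent.N939.ME.Stm

/-!
# Project ME, step ME24 (helper897): the resolvent from square-summable powers
-/

set_option autoImplicit false
open MeasureTheory ProbabilityTheory Filter Topology Finset

namespace Pool.Agent.N897.ME.RS

open Pool.Agent.N939.ME

/-! ### Hilbert's inequality (weighted sums) -/

lemma step_aux (a b s : ℝ) (hb : 0 ≤ b) (ha : 0 < a) (hs : 1 ≤ s) (hab : a ^ 2 = b ^ 2 + 1) :
    1 / (a * (b ^ 2 + s ^ 2)) ≤ 8 * a / (s * (a + s)) - 8 * b / (s * (b + s)) := by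
  have hs0 : 0 < s := by linarith
  have hba : b ≤ a := by nlinarith
  have e : 8 * a / (s * (a + s)) - 8 * b / (s * (b + s)) = 8 * (a - b) / ((a + s) * (b + s)) := by
    have h1 : a + s ≠ 0 := by positivity
    have h2 : b + s ≠ 0 := by positivity
    field_simp
    ring
  rw [e, div_le_div_iff₀ (by positivity) (by positivity)]
  -- `(a + s)(b + s) ≤ 2 (a^2 + s^2) ≤ 4 (b^2 + s^2)` and `8 (a - b) a ≥ 4`
  have h3 : 1 ≤ 2 * ((a - b) * a) := by nlinarith [mul_nonneg (sub_nonneg.2 hba) hb]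
  have h4 : (a + s) * (b + s) ≤ 4 * (b ^ 2 + s ^ 2) := by
    nlinarith [sq_nonneg (a - s), mul_nonneg (sub_nonneg.2 hba) hs0.le,
      mul_nonneg (sub_nonneg.2 hba) ha.le]
  have h5 : 0 < b ^ 2 + s ^ 2 := by positivity
  nlinarith [mul_le_mul_of_nonneg_right h3 h5.le]

lemma hil (s : ℝ) (hs : 1 ≤ s) (N : ℕ) :
    ∑ k ∈ range N, 1 / (√((k : ℝ) + 1) * ((k : ℝ) + s ^ 2)) ≤ 8 / s := by
  have hs0 : 0 < s := by linarith
  have h : ∑ k ∈ range N, 1 / (√((k : ℝ) + 1) * ((k : ℝ) + s ^ 2)) ≤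
      8 * √(N : ℝ) / (s * (√(N : ℝ) + s)) := by
    induction N with
    | zero => simp
    | succ N ih =>
      rw [sum_range_succ]
      have h1 := step_aux (√((N : ℝ) + 1)) (√(N : ℝ)) s (Real.sqrt_nonneg _)
        (Real.sqrt_pos.2 (by positivity)) hs (by
          rw [Real.sq_sqrt (by positivity), Real.sq_sqrt (by positivity)])
      rw [Real.sq_sqrt (by positivity : (0 : ℝ) ≤ (N : ℝ))] at h1
      push_cast
      linarith
  refine h.trans ?_
  rw [div_le_div_iff₀ (by positivity) hs0]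
  nlinarith [Real.sqrt_nonneg (N : ℝ)]

/-- the weights -/
noncomputable def w (j k : ℕ) : ℝ := √((j : ℝ) + 1) / √((k : ℝ) + 1)

lemma w_nonneg (j k : ℕ) : 0 ≤ w j k := by unfold w; positivity

lemma w_mul (j k : ℕ) : w j k * w k j = 1 := by
  unfold w
  have h1 : √((j : ℝ) + 1) ≠ 0 := (Real.sqrt_pos.2 (by positivity)).ne'
  have h2 : √((k : ℝ) + 1) ≠ 0 := (Real.sqrt_pos.2 (by positivity)).ne'
  field_simp

lemma w_ineq (j k : ℕ) (x y : ℝ) : 2 * (x * y) ≤ w j k * x ^ 2 + w k j * y ^ 2 := by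
  have h := w_mul j k
  have h1 : 0 < w j k := by
    unfold w
    have h1 : 0 < √((j : ℝ) + 1) := Real.sqrt_pos.2 (by positivity)
    have h2 : 0 < √((k : ℝ) + 1) := Real.sqrt_pos.2 (by positivity)
    positivity
  have h3 : w k j = 1 / w j k := by
    field_simp
    linarith
  rw [h3]
  have h4 : 0 ≤ (w j k * x - y) ^ 2 / w j k := by positivity
  have h5 : (w j k * x - y) ^ 2 / w j k = w j k * x ^ 2 + 1 / w j k * y ^ 2 - 2 * (x * y) := by
    field_simp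
    ring
  linarith

lemma sum_w (j m n : ℕ) : ∑ k ∈ Ico m n, w j k * (1 / ((j + k : ℕ) + 1 : ℝ)) ≤ 8 := by
  have h1 : ∑ k ∈ Ico m n, w j k * (1 / ((j + k : ℕ) + 1 : ℝ)) ≤
      ∑ k ∈ range n, w j k * (1 / ((j + k : ℕ) + 1 : ℝ)) := by
    apply sum_le_sum_of_subset_of_nonneg
    · intro k hk
      rw [mem_Ico] at hk
      exact mem_range.2 hk.2
    · intro k _ _
      exact mul_nonneg (w_nonneg _ _) (by positivity)
  refine h1.trans ?_
  have hs : (1 : ℝ) ≤ √((j : ℝ) + 1) := by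
    rw [Real.one_le_sqrt]
    linarith [(Nat.cast_nonneg j : (0 : ℝ) ≤ (j : ℝ))]
  have h2 := hil (√((j : ℝ) + 1)) hs n
  rw [Real.sq_sqrt (by positivity)] at h2
  have h3 : ∑ k ∈ range n, w j k * (1 / ((j + k : ℕ) + 1 : ℝ)) =
      √((j : ℝ) + 1) * ∑ k ∈ range n, 1 / (√((k : ℝ) + 1) * ((k : ℝ) + ((j : ℝ) + 1))) := by
    rw [mul_sum]
    refine sum_congr rfl fun k _ => ?_
    unfold w
    have h2 : √((k : ℝ) + 1) ≠ 0 := (Real.sqrt_pos.2 (by positivity)).ne'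
    have h4 : (j : ℝ) + k + 1 ≠ 0 := by positivity
    have h5 : (k : ℝ) + (j + 1) ≠ 0 := by positivity
    push_cast
    field_simp
    ring
  rw [h3]
  calc √((j : ℝ) + 1) * ∑ k ∈ range n, 1 / (√((k : ℝ) + 1) * ((k : ℝ) + ((j : ℝ) + 1)))
      ≤ √((j : ℝ) + 1) * (8 / √((j : ℝ) + 1)) := mul_le_mul_of_nonneg_left h2 (by positivity)
    _ = 8 := by
      have : √((j : ℝ) + 1) ≠ 0 := (Real.sqrt_pos.2 (by positivity)).ne'
      field_simp

lemma sq_sum_le (r : ℝ) (hr : 0 ≤ r) (x : ℕ → ℝ) (I : Finset ℕ) :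
    (∑ j ∈ I, r ^ j * x j) ^ 2 ≤ ∑ j ∈ I, ∑ k ∈ I, w j k * (r ^ (j + k) * x j ^ 2) := by
  have h1 : (∑ j ∈ I, r ^ j * x j) ^ 2 = ∑ j ∈ I, ∑ k ∈ I, r ^ (j + k) * (x j * x k) := by
    rw [sq, sum_mul_sum]
    refine sum_congr rfl fun j _ => sum_congr rfl fun k _ => ?_
    ring
  have h2 : ∑ j ∈ I, ∑ k ∈ I, w k j * (r ^ (j + k) * x k ^ 2) =
      ∑ j ∈ I, ∑ k ∈ I, w j k * (r ^ (j + k) * x j ^ 2) := by
    rw [sum_comm]
    refine sum_congr rfl fun j _ => sum_congr rfl fun k _ => ?_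
    rw [add_comm k j]
  have h3 : 2 * ∑ j ∈ I, ∑ k ∈ I, r ^ (j + k) * (x j * x k) ≤
      ∑ j ∈ I, ∑ k ∈ I, w j k * (r ^ (j + k) * x j ^ 2) +
        ∑ j ∈ I, ∑ k ∈ I, w k j * (r ^ (j + k) * x k ^ 2) := by
    rw [mul_sum, ← sum_add_distrib]
    refine sum_le_sum fun j _ => ?_
    rw [mul_sum, ← sum_add_distrib]
    refine sum_le_sum fun k _ => ?_
    have h4 := mul_le_mul_of_nonneg_left (w_ineq j k (x j) (x k)) (pow_nonneg hr (j + k))
    linarith
  rw [h1]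
  linarith

/-! ### measure theory -/

lemma lam_pow (m : ℕ) : ∫ r, r ^ m ∂lam = 1 / ((m : ℝ) + 1) := by
  unfold lam
  rw [← integral_Ioc_eq_integral_Ioo, ← intervalIntegral.integral_of_le zero_le_one, integral_pow]
  simp

lemma ae_lam : ∀ᵐ r ∂lam, 0 < r ∧ r < 1 := by
  unfold lam
  filter_upwards [ae_restrict_mem (measurableSet_Ioo (a := (0 : ℝ)) (b := 1))] with r hr
  exact hr

section

variable {S : Type} [MeasurableSpace S] (ν : Measure S) [IsProbabilityMeasure ν]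

lemma ae_nuh : ∀ᵐ p ∂(nuh ν), 0 < p.1 ∧ p.1 < 1 := by
  unfold nuh
  exact Measure.quasiMeasurePreserving_fst.ae ae_lam

lemma memLp_snd {b : S → ℝ} {q : ENNReal} (hb : MemLp b q ν) :
    MemLp (fun p : ℝ × S => b p.2) q (nuh ν) := by
  unfold nuh
  exact hb.comp_measurePreserving measurePreserving_snd

lemma memLp_term {b : S → ℝ} {q : ENNReal} (hb : MemLp b q ν) (hm : Measurable b) (j : ℕ) :
    MemLp (fun p : ℝ × S => p.1 ^ j * b p.2) q (nuh ν) := by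
  refine (memLp_snd ν hb).mono ?_ ?_
  · exact ((measurable_fst.pow_const j).mul (hm.comp measurable_snd)).aestronglyMeasurable
  · filter_upwards [ae_nuh ν] with p hp
    rw [norm_mul, norm_pow, Real.norm_of_nonneg hp.1.le]
    exact mul_le_of_le_one_left (norm_nonneg _) (pow_le_one₀ hp.1.le hp.2.le)

lemma int_term (b : S → ℝ) (j : ℕ) :
    ∫ p, p.1 ^ j * b p.2 ∂(nuh ν) = 1 / ((j : ℝ) + 1) * ∫ x, b x ∂ν := by
  unfold nuh
  rw [integral_prod_mul (fun r : ℝ => r ^ j) b, lam_pow]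

lemma norm_toLp {α : Type} [MeasurableSpace α] {μ : Measure α} {f : α → ℝ} (hf : MemLp f 2 μ) :
    ‖hf.toLp f‖ ^ 2 = ∫ x, f x ^ 2 ∂μ := by
  rw [← real_inner_self_eq_norm_sq, L2.inner_def]
  refine integral_congr_ae ?_
  filter_upwards [hf.coeFn_toLp] with x hx
  rw [hx]
  simp [sq]

lemma memLp_sum {a : ℕ → S → ℝ} (hm : ∀ j, Measurable (a j)) (ha : ∀ j, MemLp (a j) 2 ν)
    (I : Finset ℕ) : MemLp (fun p : ℝ × S => ∑ j ∈ I, p.1 ^ j * a j p.2) 2 (nuh ν) :=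
  memLp_finsetSum I fun j _ => memLp_term ν (ha j) (hm j) j

lemma int_sq_le {a : ℕ → S → ℝ} (hm : ∀ j, Measurable (a j)) (ha : ∀ j, MemLp (a j) 2 ν)
    (m n : ℕ) : ∫ p, (∑ j ∈ Ico m n, p.1 ^ j * a j p.2) ^ 2 ∂(nuh ν) ≤
      8 * ∑ j ∈ Ico m n, ∫ x, a j x ^ 2 ∂ν := by
  have hi : ∀ j k : ℕ, Integrable (fun p : ℝ × S => w j k * (p.1 ^ (j + k) * a j p.2 ^ 2))
      (nuh ν) := by
    intro j k
    have h1 : MemLp (fun x => a j x ^ 2) 1 ν := by
      rw [memLp_one_iff_integrable]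
      exact (ha j).integrable_sq
    have h2 := memLp_term ν h1 ((hm j).pow_const 2) (j + k)
    rw [memLp_one_iff_integrable] at h2
    exact h2.const_mul _
  have h1 : ∫ p, (∑ j ∈ Ico m n, p.1 ^ j * a j p.2) ^ 2 ∂(nuh ν) ≤
      ∫ p, (∑ j ∈ Ico m n, ∑ k ∈ Ico m n, w j k * (p.1 ^ (j + k) * a j p.2 ^ 2)) ∂(nuh ν) := by
    refine integral_mono_ae ?_ ?_ ?_
    · exact (memLp_sum ν hm ha _).integrable_sq
    · exact integrable_finsetSum _ fun j _ => integrable_finsetSum _ fun k _ => hi j k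
    · filter_upwards [ae_nuh ν] with p hp
      exact sq_sum_le p.1 hp.1.le (fun j => a j p.2) _
  refine h1.trans ?_
  rw [integral_finsetSum _ fun j _ => integrable_finsetSum _ fun k _ => hi j k, mul_sum]
  refine sum_le_sum fun j _ => ?_
  rw [integral_finsetSum _ fun k _ => hi j k]
  have h2 : ∀ k ∈ Ico m n, ∫ p, w j k * (p.1 ^ (j + k) * a j p.2 ^ 2) ∂(nuh ν) =
      w j k * (1 / ((j + k : ℕ) + 1 : ℝ)) * ∫ x, a j x ^ 2 ∂ν := by
    intro k _
    rw [integral_const_mul, int_term ν (fun x => a j x ^ 2) (j + k)]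
    ring
  rw [sum_congr rfl h2, ← sum_mul]
  exact mul_le_mul_of_nonneg_right (sum_w j m n) (integral_nonneg fun x => sq_nonneg _)

end

theorem rs : S_RS := by
  intro S _ ν _ a P hm ha hsum hP1 hP2 hP3
  set F : ℕ → ℝ × S → ℝ := fun n p => ∑ j ∈ range n, p.1 ^ j * a j p.2 with hF
  have hFm : ∀ n, Measurable (F n) := fun n =>
    Finset.measurable_sum _ fun j _ =>
      (measurable_fst.pow_const j).mul ((hm j).comp measurable_snd)
  have hF2 : ∀ n, MemLp (F n) 2 (nuh ν) := fun n => memLp_sum ν hm ha _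
  set A : ℕ → ℝ := fun j => ∫ x, a j x ^ 2 ∂ν with hA
  have hA0 : ∀ j, 0 ≤ A j := fun j => integral_nonneg fun x => sq_nonneg _
  set u : ℕ → Lp ℝ 2 (nuh ν) := fun n => (hF2 n).toLp (F n) with hu
  -- Cauchy
  have hd : ∀ m n, m ≤ n → ‖u n - u m‖ ^ 2 ≤ 8 * ∑ j ∈ Ico m n, A j := by
    intro m n hmn
    have e1 : u n - u m = ((hF2 n).sub (hF2 m)).toLp (F n - F m) := by
      rw [hu]
      exact (MemLp.toLp_sub _ _).symm
    rw [e1, norm_toLp]
    have e2 : ∀ p, (F n - F m) p = ∑ j ∈ Ico m n, p.1 ^ j * a j p.2 := by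
      intro p
      rw [Pi.sub_apply, hF]
      exact (sum_Ico_eq_sub _ hmn).symm
    simp only [e2]
    exact int_sq_le ν hm ha m n
  set T : ℝ := ∑' j, A j with hT
  have htail : ∀ m n, m ≤ n → ∑ j ∈ Ico m n, A j ≤ T - ∑ j ∈ range m, A j := by
    intro m n hmn
    rw [sum_Ico_eq_sub _ hmn]
    have := hsum.sum_le_tsum (range n) (fun j _ => hA0 j)
    linarith
  have hmono : ∀ N m, N ≤ m → T - ∑ j ∈ range m, A j ≤ T - ∑ j ∈ range N, A j := by
    intro N m hNm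
    have : ∑ j ∈ range N, A j ≤ ∑ j ∈ range m, A j :=
      sum_le_sum_of_subset_of_nonneg (range_mono hNm) fun j _ _ => hA0 j
    linarith
  have htend : Tendsto (fun N => √(8 * (T - ∑ j ∈ range N, A j))) atTop (𝓝 0) := by
    have h1 : Tendsto (fun N => ∑ j ∈ range N, A j) atTop (𝓝 T) := hsum.hasSum.tendsto_sum_nat
    have h2 : Tendsto (fun N => 8 * (T - ∑ j ∈ range N, A j)) atTop (𝓝 (8 * (T - T))) :=
      (tendsto_const_nhds.sub h1).const_mul 8
    rw [sub_self, mul_zero] at h2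
    have h3 := (Real.continuous_sqrt.tendsto 0).comp h2
    rw [Real.sqrt_zero] at h3
    exact h3
  have hcau : CauchySeq u := by
    refine cauchySeq_of_le_tendsto_0 (fun N => √(8 * (T - ∑ j ∈ range N, A j))) ?_ htend
    have key : ∀ n m N, N ≤ n → N ≤ m → m ≤ n →
        dist (u n) (u m) ≤ √(8 * (T - ∑ j ∈ range N, A j)) := by
      intro n m N hn hm' hmn
      rw [dist_eq_norm]
      apply Real.le_sqrt_of_sq_le
      refine (hd m n hmn).trans ?_
      have h1 := htail m n hmn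
      have h2 := hmono N m hm'
      linarith
    intro n m N hn hm'
    rcases le_total m n with h | h
    · exact key n m N hn hm' h
    · rw [dist_comm]
      exact key m n N hm' hn h
  obtain ⟨v, hv⟩ := cauchySeq_tendsto_of_complete hcau
  -- the measurable representative
  obtain ⟨Φ, hΦm, hΦ⟩ : ∃ Φ : ℝ × S → ℝ, Measurable Φ ∧ v =ᵐ[nuh ν] Φ :=
    ⟨_, (Lp.stronglyMeasurable v).measurable, Filter.EventuallyEq.rfl⟩
  have hΦ2 : MemLp Φ 2 (nuh ν) := (memLp_congr_ae hΦ).1 (Lp.memLp v)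
  refine ⟨Φ, hΦm, hΦ2, ?_⟩
  have he : Tendsto (fun n => ∫ p, (F n p - Φ p) ^ 2 ∂(nuh ν)) atTop (𝓝 0) := by
    have h1 : Tendsto (fun n => ‖u n - v‖ ^ 2) atTop (𝓝 0) := by
      have h2 : Tendsto (fun n => ‖u n - v‖) atTop (𝓝 0) := by
        rw [← tendsto_iff_norm_sub_tendsto_zero]
        exact hv
      have h3 := h2.pow 2
      simpa using h3
    have h4 : ∀ n, ‖u n - v‖ ^ 2 = ∫ p, (F n p - Φ p) ^ 2 ∂(nuh ν) := by
      intro n
      have e1 : v = hΦ2.toLp Φ := by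
        apply Lp.ext
        filter_upwards [hΦ, hΦ2.coeFn_toLp] with p h5 h6
        rw [h5, h6]
      have e2 : u n - v = ((hF2 n).sub hΦ2).toLp (F n - Φ) := by
        rw [e1]
        exact (MemLp.toLp_sub _ _).symm
      rw [e2, norm_toLp]
      rfl
    simp only [h4] at h1
    exact h1
  -- the equation
  set D : ℝ × S → ℝ := fun p => Φ p - a 0 p.2 - p.1 * P Φ p with hD
  obtain ⟨hPΦm, hPΦ2, _⟩ := hP1 Φ hΦ2 hΦm
  have hsub2 : ∀ n, MemLp (fun p => F n p - Φ p) 2 (nuh ν) := fun n => (hF2 n).sub hΦ2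
  have hDn : ∀ n, ∀ᵐ p ∂(nuh ν), D p ^ 2 ≤
      2 * (F (n + 1) p - Φ p) ^ 2 + 2 * (P (fun q => F n q - Φ q) p) ^ 2 := by
    intro n
    filter_upwards [ae_nuh ν, hP2 (F n) Φ (hF2 n) (hFm n) hΦ2 hΦm, hP3 n] with p hp h1 h2
    have h3 : F (n + 1) p = a 0 p.2 + p.1 * P (F n) p := by
      rw [h2, hF]
      simp only
      rw [sum_range_succ', mul_sum, pow_zero, one_mul, add_comm]
      congr 1
      refine sum_congr rfl fun j _ => ?_
      ring
    have h4 : D p = -(F (n + 1) p - Φ p) + p.1 * P (fun q => F n q - Φ q) p := by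
      rw [h1, hD]
      simp only
      rw [h3]
      ring
    rw [h4]
    set x := F (n + 1) p - Φ p
    set y := P (fun q => F n q - Φ q) p
    have h5 : p.1 ^ 2 ≤ 1 := pow_le_one₀ hp.1.le hp.2.le
    have h6 : (p.1 * y) ^ 2 ≤ y ^ 2 := by
      rw [mul_pow]
      exact mul_le_of_le_one_left (sq_nonneg _) h5
    nlinarith [sq_nonneg (x + p.1 * y)]
  have hD2 : MemLp D 2 (nuh ν) := by
    refine (hΦ2.sub (memLp_snd ν (ha 0))).sub ?_
    refine hPΦ2.mono ((measurable_fst.mul hPΦm).aestronglyMeasurable) ?_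
    filter_upwards [ae_nuh ν] with p hp
    rw [norm_mul, Real.norm_of_nonneg hp.1.le]
    exact mul_le_of_le_one_left (norm_nonneg _) hp.2.le
  have hint : ∀ n, ∫ p, D p ^ 2 ∂(nuh ν) ≤
      2 * ∫ p, (F (n + 1) p - Φ p) ^ 2 ∂(nuh ν) + 2 * ∫ p, (F n p - Φ p) ^ 2 ∂(nuh ν) := by
    intro n
    obtain ⟨hq1, hq2, hq3⟩ := hP1 (fun q => F n q - Φ q) (hsub2 n) ((hFm n).sub hΦm)
    have h1 : ∫ p, D p ^ 2 ∂(nuh ν) ≤ ∫ p, (2 * (F (n + 1) p - Φ p) ^ 2 +
        2 * (P (fun q => F n q - Φ q) p) ^ 2) ∂(nuh ν) := by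
      refine integral_mono_ae hD2.integrable_sq ?_ (hDn n)
      exact ((hsub2 (n + 1)).integrable_sq.const_mul 2).add (hq2.integrable_sq.const_mul 2)
    refine h1.trans ?_
    rw [integral_add ((hsub2 (n + 1)).integrable_sq.const_mul 2)
      (hq2.integrable_sq.const_mul 2), integral_const_mul, integral_const_mul]
    linarith
  have h0 : ∫ p, D p ^ 2 ∂(nuh ν) ≤ 0 := by
    have h1 : Tendsto (fun n => 2 * ∫ p, (F (n + 1) p - Φ p) ^ 2 ∂(nuh ν) +
        2 * ∫ p, (F n p - Φ p) ^ 2 ∂(nuh ν)) atTop (𝓝 (2 * 0 + 2 * 0)) :=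
      (((tendsto_add_atTop_iff_nat 1).2 he).const_mul 2).add (he.const_mul 2)
    have h2 := ge_of_tendsto' h1 hint
    linarith
  have h00 : ∫ p, D p ^ 2 ∂(nuh ν) = 0 := le_antisymm h0 (integral_nonneg fun p => sq_nonneg _)
  rw [integral_eq_zero_iff_of_nonneg (fun p => sq_nonneg _) hD2.integrable_sq] at h00
  filter_upwards [h00] with p hp
  have hp' : D p ^ 2 = 0 := hp
  have h1 : D p = 0 := by
    exact pow_eq_zero_iff (two_ne_zero) |>.1 hp'
  rw [hD] at h1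
  simp only at h1
  linarith

end Pool.Agent.N897.ME.RS
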